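import Pool.Agent.Lib.MP_09eaec_ag.Mg.G030
import Pool.Agent.Lib.MP_09eaec_ag.Mg.G022
import Pool.Agent.Lib.MP_09eaec_ag.Mg.G031
import Pool.Agent.Lib.MP_09eaec_ag.Mg.G014

/-!
# Assembly: `d_0(n, j n + v)` for `v ≤ j` on hyperelliptic curves
-/

set_option autoImplicit false

namespace Pool.Agent.MP_09eaec.GG

open Module

universe u v

variable {k : Type u} {K : Type v} [Field k] [Field K] [Algebra k K]

/-- The stable bundles for `1 ≤ v ≤ j` and `g - j < n - v`. -/
theorem he_upper_low [CurveG k K] {H : Dv k K} {x y : K} (hp : Pencil H x y) {n j v : ℕ}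
    (hv : v ≤ j) (hvn : v < n) (hj : (j : ℤ) ≤ gen k K - 1)
    (hu : gen k K - j < n - v) :
    ((2 * j - 1) * n + v + (gen k K - j) : ℤ) ∈ stableDegrees k K n (j * n + v) := by
  have hv' : (v : ℤ) ≤ j := by exact_mod_cast hv
  have hv0 : (0 : ℤ) ≤ v := by positivity
  obtain ⟨E, h1, h2, -, h3⟩ := exists_low_stable (k := k) (K := K) (n := n) (i := 1)
    (d := gen k K - j - (n - v)) le_rfl (by omega) (by linarith) (by linarith)
    (Or.inl ⟨rfl, by linarith⟩)
  have h4 := h3 ((j : ℤ) • H)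
  have h5 := le_h0_smul hp (s := (j : ℤ)) (by positivity)
  have hdegj : ddeg ((j : ℤ) • H) = 2 * j := by rw [ddeg_zsmul, hp.deg]; ring
  rw [hdegj] at h4
  have hn1 : (0 : ℤ) ≤ n - 1 := by
    have : (1 : ℤ) ≤ n := by exact_mod_cast (by omega : 1 ≤ n)
    linarith
  have h6 := mul_le_mul_of_nonneg_left h5 hn1
  have h7 := stable_mem (d := j * n + v) (by omega) (E := E.twist ((j : ℤ) • H))
    (VB.stable_twist h1 _) (by
      push_cast at h4 ⊢
      linarith)
  rw [VB.deg_twist, h2, hdegj, finrank_fin_fun] at h7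
  have e : gen k K - j - (n - v) + n * (2 * (j : ℤ)) =
      (2 * j - 1) * n + v + (gen k K - j) := by ring
  rwa [e] at h7

/-- The lower bound for `j n + v` sections. -/
theorem he_lower [CurveG k K] {H : Dv k K} {x y : K} (hp : Pencil H x y) {n j v : ℕ}
    (hn : 1 ≤ n) (hj : 1 ≤ j) (hjg : (j : ℤ) ≤ gen k K) (hv : 1 ≤ v) {e : ℤ}
    (he : e ∈ stableDegrees k K n (j * n + v)) :
    min (2 * j * n : ℤ) ((2 * j - 1) * n + v + (gen k K - j)) ≤ e := by
  obtain ⟨E, V, α, hα, hV, hd, rfl, hst⟩ := of_mem_stableDegrees he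
  have hrank : finrank K (Fin n → K) = n := Module.finrank_fin_fun K
  by_cases h : E.deg < 2 * j * n
  · have h1 := lower_round hp hV hα (by rw [hrank]; exact hn) hst (j := j) (by omega) hjg
      (by rw [hrank, hd]; push_cast; omega) (by rw [hrank]; exact h)
    rw [hrank, hd] at h1
    refine le_trans (min_le_right _ _) ?_
    push_cast at h1
    linarith
  · push Not at h
    exact le_trans (min_le_left _ _) h

/-- `j n + v` sections, `1 ≤ v ≤ j`. -/
theorem he_small [CurveG k K] {H : Dv k K} {x y : K} (hp : Pencil H x y) {n j v : ℕ}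
    (hjg : (j : ℤ) ≤ gen k K - 1) (hv : 1 ≤ v) (hvj : v ≤ j) (hvn : v < n) :
    IsLeast (stableDegrees k K n (j * n + v))
      (min (2 * j * n : ℤ) ((2 * j - 1) * n + v + (gen k K - j))) := by
  refine ⟨?_, fun e he => he_lower hp (by omega) (by omega) (by omega) hv he⟩
  by_cases h : gen k K - j < n - v
  · rw [min_eq_right (by linarith)]
    exact he_upper_low hp hvj hvn hjg h
  · push Not at h
    rw [min_eq_left (by linarith)]
    refine upper_plateau hp (by omega) (by omega) hjg (by omega) ?_ ?_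
    · rw [add_mul, one_mul]; omega
    · have h1 : (v : ℤ) ≤ j := by exact_mod_cast hvj
      have h2 : (v : ℤ) + 1 ≤ n := by exact_mod_cast hvn
      have h3 : (1 : ℤ) ≤ v := by exact_mod_cast hv
      have h4 : ((v : ℤ) - 1) * (v + 1) ≤ (j - 1) * (n * (n - v)) := by
        apply mul_le_mul (by linarith) _ (by linarith) (by linarith)
        have : (n : ℤ) * 1 ≤ n * (n - v) := mul_le_mul_of_nonneg_left (by linarith) (by linarith)
        linarith
      push_cast
      nlinarith

/-- `(j + 1) n` sections. -/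
theorem he_mult [CurveG k K] {H : Dv k K} {x y : K} (hp : Pencil H x y) {n j : ℕ}
    (hn : 2 ≤ n) (hj : 1 ≤ j) (hjg : (j : ℤ) + 2 ≤ gen k K) :
    IsLeast (stableDegrees k K n ((j + 1) * n)) ((2 * j + 1) * n + 1) := by
  refine ⟨upper_mult hp (by omega) (by omega), fun e he => ?_⟩
  obtain ⟨E, V, α, hα, hV, hd, rfl, hst⟩ := of_mem_stableDegrees he
  have hrank : finrank K (Fin n → K) = n := Module.finrank_fin_fun K
  have := lower_top hp hV hα (by rw [hrank]; exact hn) hst (j := j) (by omega) hjg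
    (by rw [hrank, hd]; push_cast; ring)
  rw [hrank] at this
  linarith

/-- The minimal degree on hyperelliptic curves for `d = j n + v` sections, `v ≤ j`. -/
theorem he_main [IsAlgClosed k] [CharZero k] (hK : IsCurveField k K) {g : ℤ}
    (hg : IsGenus k K g) (hgon : gon k K 1 = 2) {n j : ℕ} (hn : 2 ≤ n) (hj : 1 ≤ j)
    (hjg : (j : ℤ) + 2 ≤ g) :
    IsLeast (stableDegrees k K n ((j + 1) * n)) ((2 * j + 1) * n + 1) ∧
    ∀ v : ℕ, 1 ≤ v → v < n →
      (∀ e ∈ stableDegrees k K n (j * n + v),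
        min (2 * j * n : ℤ) ((2 * j - 1) * n + v + (g - j)) ≤ e) ∧
      (v ≤ j → IsLeast (stableDegrees k K n (j * n + v))
        (min (2 * j * n : ℤ) ((2 * j - 1) * n + v + (g - j)))) := by
  obtain ⟨inst, rfl⟩ := curveG_of_isGenus hK (by omega) hg
  obtain ⟨H, x, y, hp⟩ := exists_pencil (k := k) (K := K) hgon
  exact ⟨he_mult hp hn hj hjg, fun v hv hvn =>
    ⟨fun e he => he_lower hp (by omega) hj (by omega) hv he,
      fun hvj => he_small hp (by omega) hv hvj hvn⟩⟩

end Pool.Agent.MP_09eaec.GG
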