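import Pool.Agent.Lib.MP_09eaec_ag.Mg.G019
import Pool.Agent.Lib.MP_09eaec_ag.Mg.G003

/-!
# TASK DDeg: preimages of constant subspaces under a quotient map `p : E → O(D)^r`

`J0 = KU K U` (`finrank_KU`, rank `dim U`), `J = J0.comap p`. `W ⧸ J ≃ K^r ⧸ J0` since `p` is onto, so
`rank (W ⧸ J) = r - dim U`. Degrees: `VB.deg_exact` (GG/Exact.lean) for `0 → ker p → W → K^r → 0` gives
`E.deg = (E.sub (ker p)).deg + r ddeg D` (`deg_pw`), and for `0 → ker p → J → J0 → 0` (`ker p ≤ J`, inclusion; `p` restricted to
`J → J0`, onto; the stalks: `z ∈ J0` in `(pw D r).M P` is `p w`, `w ∈ E.M P`, and `w ∈ J`) it gives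
`(E.sub J).deg = (E.sub (ker p)).deg + ((pw D r).sub J0).deg`; `deg_pw_KU`: `dim U * ddeg D ≤ ((pw D r).sub J0).deg`.
-/

set_option autoImplicit false

namespace Pool.Agent.MP_09eaec.GG

open Module

universe u v

variable {k : Type u} {K : Type v} [Field k] [Field K] [Algebra k K]
variable {W : Type v} [AddCommGroup W] [Module K W] [Module k W] [IsScalarTower k K W]

variable [CurveG k K]

theorem ddeg_comap [FiniteDimensional K W] {E : VB k K W} {D : Dv k K} {r : ℕ}
    (p : W →ₗ[K] (Fin r → K)) (hps : Function.Surjective p)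
    (hpE : ∀ (P : Place k K) (z : Fin r → K), z ∈ (pw D r).M P ↔ ∃ w ∈ E.M P, p w = z)
    (U : Submodule k (Fin r → k)) :
    finrank K (W ⧸ (KU K U).comap p) + finrank k U = r ∧
      E.deg + finrank k U * ddeg D ≤ (E.sub ((KU K U).comap p)).deg + r * ddeg D := by
  have hker : LinearMap.ker ((KU K U).mkQ.comp p) = (KU K U).comap p := by
    rw [LinearMap.ker_comp, Submodule.ker_mkQ]
  have hsur : Function.Surjective ((KU K U).mkQ.comp p) := by
    rw [LinearMap.coe_comp]
    exact (Submodule.mkQ_surjective _).comp hps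
  constructor
  · have h1 := (((KU K U).mkQ.comp p).quotKerEquivOfSurjective hsur).finrank_eq
    rw [hker] at h1
    rw [h1, ← finrank_KU (K := K) U, Submodule.finrank_quotient_add_finrank, finrank_fin_fun]
  · have hle : LinearMap.ker p ≤ (KU K U).comap p := by
      intro x hx
      rw [Submodule.mem_comap, LinearMap.mem_ker.1 hx]
      exact zero_mem _
    have h1 : E.deg = (E.sub (LinearMap.ker p)).deg + (pw D r).deg :=
      VB.deg_exact E (E.sub (LinearMap.ker p)) (pw D r) (LinearMap.ker p).subtype p
        (Submodule.subtype_injective _) hps (Submodule.range_subtype _) (fun P x => Iff.rfl) hpE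
    have h2 : (E.sub ((KU K U).comap p)).deg =
        (E.sub (LinearMap.ker p)).deg + ((pw D r).sub (KU K U)).deg := by
      refine VB.deg_exact (E.sub ((KU K U).comap p)) (E.sub (LinearMap.ker p))
        ((pw D r).sub (KU K U)) (Submodule.inclusion hle)
        (p.restrict (p := (KU K U).comap p) (q := KU K U) (fun x hx => hx)) ?_ ?_ ?_ ?_ ?_
      · exact Submodule.inclusion_injective hle
      · rintro ⟨z, hz⟩
        obtain ⟨w, rfl⟩ := hps z
        exact ⟨⟨w, hz⟩, rfl⟩
      · ext ⟨x, hx⟩
        rw [LinearMap.mem_range, LinearMap.mem_ker]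
        constructor
        · rintro ⟨y, hy⟩
          have hy' : (y : W) = x := congrArg Subtype.val hy
          refine Subtype.ext ?_
          change p x = 0
          rw [← hy']
          exact y.2
        · intro h
          have h' : p x = 0 := congrArg Subtype.val h
          exact ⟨⟨x, h'⟩, rfl⟩
      · intro P x
        exact Iff.rfl
      · rintro P ⟨z, hz⟩
        constructor
        · intro h
          obtain ⟨w, hw, hwz⟩ := (hpE P z).1 h
          refine ⟨⟨w, ?_⟩, hw, Subtype.ext hwz⟩
          change p w ∈ KU K U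
          rw [hwz]
          exact hz
        · rintro ⟨w, hw, hwz⟩
          have hwz' : p (w : W) = z := congrArg Subtype.val hwz
          exact (hpE P z).2 ⟨w, hw, hwz'⟩
    have h3 := deg_pw_KU (K := K) D U
    have h4 := deg_pw (k := k) (K := K) D r
    rw [h4] at h1
    linarith

end Pool.Agent.MP_09eaec.GG
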