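import Pool.Agent.Lib.MP_09eaec_ag.Mg.G016
import Pool.Agent.Lib.MP_09eaec_ag.Mg.G008
import Pool.Agent.Lib.MP_09eaec_ag.Mg.G009
import Pool.Agent.Lib.MP_09eaec_ag.Mg.G002
import Pool.Agent.Lib.MP_09eaec_ag.Mg.G007

/-!
# The dual of a stable bundle
-/

set_option autoImplicit false

namespace Pool.Agent.MP_09eaec.GG

open Module

universe u v

variable {k : Type u} {K : Type v} [Field k] [Field K] [Algebra k K]
variable {W : Type v} [AddCommGroup W] [Module K W] [Module k W] [IsScalarTower k K W]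
variable {A : Type v} [AddCommGroup A] [Module K A] [Module k A] [IsScalarTower k K A]

variable [CurveG k K]

open scoped Matrix in
theorem deg_dual {m : ℕ} (F : VB k K (Fin m → K)) : (hom F (line 0)).deg = - F.deg := by
  obtain ⟨F', rfl⟩ := exists_toVB_eq F
  let F'' : Bundle k K m :=
    { g := fun P => ((F'.g P)⁻¹)ᵀ
      det_ne_zero := fun P => by
        rw [Matrix.det_transpose, Matrix.det_nonsing_inv, Ring.inverse_eq_inv']
        exact inv_ne_zero (F'.det_ne_zero P)
      finite := by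
        refine F'.finite.subset ?_
        intro P hP h
        apply hP
        show ((F'.g P)⁻¹)ᵀ = 1
        rw [h, inv_one, Matrix.transpose_one] }
  have hinv : ∀ P, (F''.g P)⁻¹ = (F'.g P)ᵀ := by
    intro P
    show (((F'.g P)⁻¹)ᵀ)⁻¹ = (F'.g P)ᵀ
    rw [← Matrix.transpose_nonsing_inv, Matrix.nonsing_inv_nonsing_inv _ (F'.isUnit_det P)]
  let e : ((Fin m → K) →ₗ[K] K) ≃ₗ[K] (Fin m → K) := ((Pi.basisFun K (Fin m)).constr K).symm
  have he : ∀ (x y : Fin m → K), e.symm x y = y ⬝ᵥ x := by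
    intro x y
    show (Pi.basisFun K (Fin m)).constr K x y = y ⬝ᵥ x
    rw [Module.Basis.constr_apply_fintype]
    simp [dotProduct]
  have hmap : (hom (toVB F') (line 0)).map e = toVB F'' := by
    apply VB.ext'
    intro P x
    rw [VB.mem_map, mem_hom, mem_toVB]
    have h0 : ∀ y : K, y ∈ (line (0 : Dv k K)).M P ↔ P.IsInt y := by
      intro y
      rw [mem_line]
      simp only [Finsupp.coe_zero, Pi.zero_apply, neg_zero]
      exact Iff.rfl
    constructor
    · intro h i
      have h1 := h ((F'.g P).col i) (F'.mem_col P i)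
      rw [h0, he] at h1
      rw [hinv]
      exact h1
    · intro h b hb
      rw [mem_toVB] at hb
      rw [h0, he]
      have h1 : b = F'.g P *ᵥ ((F'.g P)⁻¹ *ᵥ b) := by
        rw [Matrix.mulVec_mulVec, Matrix.mul_nonsing_inv _ (F'.isUnit_det P), Matrix.one_mulVec]
      have h2 : b ⬝ᵥ x = ((F'.g P)⁻¹ *ᵥ b) ⬝ᵥ ((F'.g P)ᵀ *ᵥ x) := by
        conv_lhs => rw [h1]
        rw [Matrix.mulVec_transpose, dotProduct_comm, Matrix.dotProduct_mulVec, dotProduct_comm]
      rw [h2]
      refine P.isInt_sum _ _ fun i _ => P.isInt_mul (hb i) ?_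
      have h3 := h i
      rw [hinv] at h3
      exact h3
  rw [← VB.deg_map (hom (toVB F') (line 0)) e, hmap, deg_toVB, deg_toVB]
  unfold Bundle.deg
  have hfs : ∑ᶠ P : Place k K, P.ord (F''.g P).det = - ∑ᶠ P : Place k K, P.ord (F'.g P).det := by
    rw [← finsum_neg_distrib]
    refine finsum_congr fun P => ?_
    show P.ord (((F'.g P)⁻¹)ᵀ).det = - P.ord (F'.g P).det
    rw [Matrix.det_transpose, Matrix.det_nonsing_inv, Ring.inverse_eq_inv', P.ord_inv]
  rw [hfs]

theorem hom_line_eq_twist [FiniteDimensional K W] (F : VB k K W) (D : Dv k K) :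
    hom F (line D) = (hom F (line 0)).twist D := by
  apply VB.ext'
  intro P φ
  obtain ⟨t, ht, htD⟩ := exists_ord_eq P (D P)
  rw [VB.mem_twist_iff ht htD, mem_hom, mem_hom]
  have h : ∀ z : K, z ∈ (line D).M P ↔ t * z ∈ (line (0 : Dv k K)).M P := by
    intro z
    rw [mem_line, mem_line, ← mem_filt_iff_of_ord P ht htD, Finsupp.coe_zero, Pi.zero_apply,
      neg_zero, neg_add_cancel]
  constructor
  · intro h1 x hx
    exact (h _).1 (h1 x hx)
  · intro h1 x hx
    exact (h _).2 (h1 x hx)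

theorem hom_map_line [FiniteDimensional K W] [FiniteDimensional K A] (F : VB k K W)
    (f : W ≃ₗ[K] A) (D : Dv k K) : ∃ g : (W →ₗ[K] K) ≃ₗ[K] (A →ₗ[K] K),
      (∀ φ a, g φ a = φ (f.symm a)) ∧ (hom F (line D)).map g = hom (F.map f) (line D) := by
  refine ⟨LinearEquiv.arrowCongr f (LinearEquiv.refl K K), fun φ a => rfl, ?_⟩
  apply VB.ext'
  intro P ψ
  rw [VB.mem_map, mem_hom, mem_hom]
  constructor
  · intro h a ha
    rw [VB.mem_map] at ha
    have := h _ ha
    simpa [LinearEquiv.arrowCongr] using this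
  · intro h x hx
    have := h (f x) (by rw [VB.mem_map, f.symm_apply_apply]; exact hx)
    simpa [LinearEquiv.arrowCongr] using this

theorem deg_hom_line [FiniteDimensional K W] (F : VB k K W) (D : Dv k K) :
    (hom F (line D)).deg = finrank K W * ddeg D - F.deg := by
  let f : W ≃ₗ[K] (Fin (finrank K W) → K) :=
    LinearEquiv.ofFinrankEq _ _ (Module.finrank_fin_fun K).symm
  obtain ⟨g, -, hg⟩ := hom_map_line F f D
  rw [← VB.deg_map _ g, hg, hom_line_eq_twist, VB.deg_twist, deg_dual, VB.deg_map]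
  have h1 : finrank K ((Fin (finrank K W) → K) →ₗ[K] K) = finrank K W := by
    rw [Module.finrank_linearMap, Module.finrank_self, mul_one, Module.finrank_fin_fun]
  rw [h1]
  ring

/-- Subbundles of the dual. -/
theorem deg_sub_hom [FiniteDimensional K W] (F : VB k K W) (D : Dv k K)
    (N : Submodule K W) : ((hom F (line D)).sub N.dualAnnihilator).deg =
      finrank K (W ⧸ N) * ddeg D - (F.quo N).deg := by
  rw [← deg_hom_line]
  let g : ((W ⧸ N) →ₗ[K] K) ≃ₗ[K] N.dualAnnihilator := N.dualQuotEquivDualAnnihilator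
  have hg : ∀ φ x, ((g φ : N.dualAnnihilator) : W →ₗ[K] K) x = φ (N.mkQ x) := fun φ x => rfl
  have hdm := VB.deg_map (A := ↥N.dualAnnihilator) (hom (F.quo N) (line D)) g
  rw [← hdm]
  congr 1
  apply VB.ext'
  intro P φ
  obtain ⟨ψ, rfl⟩ := g.surjective φ
  rw [VB.mem_map, g.symm_apply_apply, VB.mem_sub, mem_hom, mem_hom]
  constructor
  · intro h x hx
    rw [VB.mem_quo] at hx
    obtain ⟨z, hz, rfl⟩ := hx
    have := h z hz
    rwa [hg] at this
  · intro h x hx
    rw [hg]
    exact h _ (VB.mem_quo.2 ⟨x, hx, rfl⟩)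

theorem stable_hom_line [FiniteDimensional K W] {F : VB k K W} (hF : F.Stable) (D : Dv k K) :
    (hom F (line D)).Stable := by
  intro J hJ hJ'
  obtain ⟨N, rfl⟩ : ∃ N : Submodule K W, J = N.dualAnnihilator :=
    ⟨J.dualCoannihilator, (Subspace.dualCoannihilator_dualAnnihilator_eq).symm⟩
  have hN : N ≠ ⊤ := by
    rintro rfl
    exact hJ Submodule.dualAnnihilator_top
  have hN' : N ≠ ⊥ := by
    rintro rfl
    exact hJ' Submodule.dualAnnihilator_bot
  have h1 := hF N hN' hN
  have h2 := VB.deg_add F N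
  have h3 := Submodule.finrank_quotient_add_finrank N
  have h4 : finrank K N.dualAnnihilator = finrank K (W ⧸ N) :=
    (LinearEquiv.finrank_eq N.dualQuotEquivDualAnnihilator).symm.trans
      (by rw [Module.finrank_linearMap, Module.finrank_self, mul_one])
  have h5 : finrank K (W →ₗ[K] K) = finrank K W := by
    rw [Module.finrank_linearMap, Module.finrank_self, mul_one]
  rw [deg_sub_hom, deg_hom_line, h4, h5]
  have h6 : (finrank K W : ℤ) = finrank K (W ⧸ N) + finrank K N := by exact_mod_cast h3.symm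
  have h7 : (F.quo N).deg = F.deg - (F.sub N).deg := by linarith
  rw [h7]
  rw [h6] at h1 ⊢
  nlinarith

end Pool.Agent.MP_09eaec.GG
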