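import Pool.Agent.Lib.MP_09eaec_ag.Mg.G022
import Pool.Agent.Lib.MP_09eaec_ag.HE.DualG

/-!
# TASK DQuo: the maximal quotient `O(D)^r` of a semistable bundle of the same slope

`b` a `k`-basis of `(hom E (line D)).H0` (finite dimensional), `r` its dimension, `p w = (b i w)_i`. The `b i` are
`K`-independent: see the proof of `hom_le_rank` in HY/SpanDeg.lean (`hom_eq_zero_of`, `kindep`), with
`(E.sub J).deg ≤ finrank J * c` for all `J` (from `hquo` and `VB.deg_add`, as in the proof of `exists_frame_sections` in
HY/Classify.lean), so `p` is surjective (its range is the common zero space of the functionals which vanish on it: if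
`∑ a i * b i w = 0` for all `w` then `a = 0`). Let `F` be the image of `E` under `p` (`VB.exists_image` in GG/Exact.lean), so
`F.M P = p (E.M P)`. `F.deg = (E.quo (ker p)).deg ≥ c r` (`VB.deg_exact`, or the second part of GG/Exact.lean; if
`ker p = ⊤` then `r = 0` and everything is trivial), `F ≤ pw D r` and `(pw D r).deg = r c` (`deg_pw`), so `F = pw D r`
(`VB.eq_of_le_of_deg_le`, GG/DegLe.lean).
-/

set_option autoImplicit false

namespace Pool.Agent.MP_09eaec.GG

open Module

universe u v

variable {k : Type u} {K : Type v} [Field k] [Field K] [Algebra k K]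
variable {W : Type v} [AddCommGroup W] [Module K W] [Module k W] [IsScalarTower k K W]

variable [CurveG k K]

private theorem DQuo_aux {F : Type u} [Field F] {M : Type v} [AddCommGroup M] [Module F M]
    (H : Submodule F M) [Module.Finite F H] :
    ∃ (r : ℕ) (φ : Fin r → M), r = finrank F H ∧ (∀ i, φ i ∈ H) ∧ LinearIndependent F φ := by
  have b := Module.finBasis F H
  exact ⟨finrank F H, fun i => (b i : M), rfl, fun i => (b i).2,
    b.linearIndependent.map' H.subtype (Submodule.ker_subtype _)⟩

private theorem DQuo_surj {F : Type v} [Field F] {M : Type v} [AddCommGroup M] [Module F M]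
    {r : ℕ} (φ : Fin r → (M →ₗ[F] F)) (h : LinearIndependent F φ) :
    Function.Surjective (LinearMap.pi φ) := by
  classical
  rw [← LinearMap.dualMap_injective_iff, injective_iff_map_eq_zero]
  intro a ha
  have h1 : ∑ i, a (Pi.single i 1) • φ i = 0 := by
    ext w
    have h2 := LinearMap.congr_fun ha w
    rw [LinearMap.dualMap_apply] at h2
    have h3 : (LinearMap.pi φ) w = ∑ i, φ i w • (Pi.single i (1 : F) : Fin r → F) := by
      funext j
      rw [LinearMap.pi_apply, Finset.sum_apply]
      simp [Pi.single_apply]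
    rw [h3, map_sum, LinearMap.zero_apply] at h2
    rw [LinearMap.sum_apply, LinearMap.zero_apply, ← h2]
    refine Finset.sum_congr rfl fun i _ => ?_
    rw [LinearMap.smul_apply, map_smul, smul_eq_mul, smul_eq_mul, mul_comm]
  have h4 := Fintype.linearIndependent_iff.1 h _ h1
  refine LinearMap.pi_ext' fun i => ?_
  ext
  simpa using h4 i

theorem dquo [FiniteDimensional K W] {E : VB k K W} {D : Dv k K} {c : ℤ} (hD : ddeg D = c)
    (hd : E.deg = finrank K W * c)
    (hquo : ∀ J : Submodule K W, J ≠ ⊤ → c * finrank K (W ⧸ J) ≤ (E.quo J).deg) :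
    ∃ (r : ℕ) (p : W →ₗ[K] (Fin r → K)), (r : ℤ) = (hom E (line D)).h0 ∧
      Function.Surjective p ∧
      ∀ (P : Place k K) (z : Fin r → K), z ∈ (pw D r).M P ↔ ∃ w ∈ E.M P, p w = z := by
  have hsub : ∀ J : Submodule K W, (E.sub J).deg ≤ finrank K J * c := by
    intro J
    by_cases hJ : J = ⊤
    · subst hJ
      rw [VB.deg_sub_top, finrank_top, hd]
    · have h1 := hquo J hJ
      have h2 := VB.deg_add E J
      have h3 : (finrank K (W ⧸ J) : ℤ) + finrank K J = finrank K W := by
        exact_mod_cast Submodule.finrank_quotient_add_finrank J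
      have h4 : (finrank K W : ℤ) * c = c * (finrank K (W ⧸ J) : ℤ) + finrank K J * c := by
        rw [← h3]; ring
      rw [hd] at h2
      linarith
  have := infinite_places (k := k) (K := K)
  obtain ⟨P0⟩ : Nonempty (Place k K) := inferInstance
  obtain ⟨r, φ, hr, hmem, hli⟩ := DQuo_aux (hom E (line D)).H0
  have hP : ∀ φ : W →ₗ[K] K,
      (∀ Q x, x ∈ E.M Q → φ x ∈ (line (D - Finsupp.single P0 1)).M Q) → φ = 0 := by
    intro φ hφ
    refine hom_eq_zero_of hsub hd ?_ φ hφ
    rw [ddeg_sub, ddeg_single]
    omega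
  have hK := kindep E hP φ hmem hli
  have hps : Function.Surjective (LinearMap.pi φ) := DQuo_surj φ hK
  refine ⟨r, LinearMap.pi φ, by rw [hr]; rfl, hps, ?_⟩
  obtain ⟨p, hpdef⟩ : ∃ p : W →ₗ[K] (Fin r → K), p = LinearMap.pi φ := ⟨_, rfl⟩
  rw [← hpdef] at hps ⊢
  obtain ⟨F, hF⟩ := VB.exists_image E p hps
  have hle : F ≤ pw D r := by
    intro P y hy
    obtain ⟨w, hw, rfl⟩ := (hF P y).1 hy
    rw [mem_pw]
    intro i
    have h1 := mem_hom.1 (VB.mem_H0.1 (hmem i) P) w hw
    rw [mem_line] at h1
    rw [hpdef]
    exact h1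
  have hdeg : (pw D r).deg ≤ F.deg := by
    rw [deg_pw, hD]
    by_cases hk : LinearMap.ker p = ⊤
    · have h0 : r = 0 := by
        by_contra hr0
        obtain ⟨w, hw⟩ := hps (fun _ => 1)
        have h1 : w ∈ LinearMap.ker p := by rw [hk]; trivial
        rw [LinearMap.mem_ker, hw] at h1
        exact one_ne_zero (congrFun h1 ⟨0, Nat.pos_of_ne_zero hr0⟩)
      have h2 : finrank K (Fin r → K) = 0 := by rw [finrank_fin_fun, h0]
      rw [VB.deg_of_finrank_zero F h2, h0]
      simp
    · have h1 := hquo _ hk
      have h2 := VB.deg_exact E (E.sub (LinearMap.ker p)) F (LinearMap.ker p).subtype p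
        (Submodule.subtype_injective _) hps (Submodule.range_subtype _)
        (fun P x => Iff.rfl) hF
      have h3 := VB.deg_add E (LinearMap.ker p)
      have h4 : finrank K (W ⧸ LinearMap.ker p) = r := by
        rw [(p.quotKerEquivOfSurjective hps).finrank_eq, finrank_fin_fun]
      rw [h4] at h1
      have h5 : c * (r : ℤ) = r * c := mul_comm _ _
      linarith
  have heq := VB.eq_of_le_of_deg_le hle hdeg
  intro P z
  rw [← heq]
  exact hF P z

end Pool.Agent.MP_09eaec.GG
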