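import Pool.Agent.Lib.MP_09eaec_ag.Mg.G039
import Pool.Agent.Lib.MP_09eaec_ag.Mg.G036
import Pool.Agent.Lib.MP_09eaec_ag.Mg.G043
import Pool.Agent.Lib.MP_09eaec_ag.Mg.G041
import Pool.Agent.Lib.MP_09eaec_ag.G3.MainG3

/-!
# The minimal degree of stable coherent systems on hyperelliptic curves: two-sided bounds
-/

set_option autoImplicit false

namespace Pool.Agent.MP_09eaec.GG

open Module

universe u v

variable {k : Type u} {K : Type v} [Field k] [Field K] [Algebra k K]

/-- The strip `j = g - 2`. -/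
theorem he_strip_top [CurveG k K] {H : Dv k K} {x y : K} (hp : Pencil H x y) {n d j v u : ℕ}
    (hn : 2 ≤ n) (hj : 2 ≤ j) (hjg : (j : ℤ) + 2 = gen k K) (hd : d = j * n + v)
    (hv : 1 ≤ v) (hu : u + v = n) (h1 : (j : ℤ) * n ≤ gen k K * v)
    (h2 : (gen k K - 1) * v ≤ j * n)
    (hq : 1 < (v : ℤ) ^ 2 - (j - 1) * n * u) {e : ℤ} (he : e ∈ stableDegrees k K n d) :
    2 * j * n + 1 ≤ e := by
  have hd' : (d : ℤ) = j * n + v := by exact_mod_cast hd
  have hu' : (u : ℤ) + v = n := by exact_mod_cast hu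
  have h3 := (he_bounds hp hn (by omega) (by omega) hd hv hu he).1 h1
  obtain ⟨E, V, α, hα, hV, hfV, hdE, hst⟩ := of_mem_stableDegrees he
  by_contra hcon
  have h4 : e = 2 * j * n := by omega
  have hrank : finrank K (Fin n → K) = n := Module.finrank_fin_fun K
  have hv' : (v : ℤ) = n - u := by linarith
  have hJ2 : (2 : ℤ) ≤ j := by exact_mod_cast hj
  have hun : (u : ℤ) < n := by omega
  have hu0 : (0 : ℤ) ≤ u := by positivity
  have hq' : 0 < (n : ℤ) ^ 2 - (j + 1) * n * u + u ^ 2 := by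
    rw [hv'] at hq
    nlinarith
  have hu2 : (j + 2) * u ≤ 2 * n := by
    by_contra hc
    push Not at hc
    have hc' : 2 * (n : ℤ) < (j + 2) * u := by exact_mod_cast hc
    have a1 : 0 ≤ ((n : ℤ) - u) * ((j + 2) * u - 2 * n) :=
      mul_nonneg (by linarith) (by linarith)
    have hn0 : (0 : ℤ) < n := by exact_mod_cast (by omega : 0 < n)
    have a2 : 0 < (n : ℤ) * ((j + 2) * u - 2 * n) := mul_pos hn0 (by linarith)
    have a3 : 0 < ((j : ℤ) + 2) * ((n : ℤ) ^ 2 - (j + 1) * n * u + u ^ 2) :=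
      mul_pos (by linarith) hq'
    have a4 : 0 ≤ ((j : ℤ) ^ 2 + 2 * j - 2) * ((n : ℤ) * ((j + 2) * u - 2 * n)) :=
      mul_nonneg (by nlinarith) a2.le
    have a5 : 0 ≤ ((j : ℤ) ^ 2 + 2 * j - 4) * (n : ℤ) ^ 2 :=
      mul_nonneg (by nlinarith) (by positivity)
    nlinarith
  have hu1 : n ≤ (j + 1) * u := by
    have : (n : ℤ) ≤ (j + 1) * u := by
      rw [← hjg, hv'] at h2
      nlinarith
    exact_mod_cast this
  have hquo : ∀ J : Submodule K (Fin n → K), J ≠ ⊤ →
      2 * (j : ℤ) * finrank K ((Fin n → K) ⧸ J) ≤ (E.quo J).deg := fun J hJ =>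
    quo_deg_ge hp hV hα (by rw [hrank]; omega) hst (j := j) (by omega) (by omega)
      (by rw [hrank, hfV, hd']; linarith) hJ
  have hfr := strip_top_frame hp hV hα (by rw [hrank]; omega) hst hj hjg (u := u)
    (by rw [hfV, hrank, hd']; linarith) (by rw [hdE, h4, hrank]) hquo (by rw [hrank]; exact hu1)
    (by rw [hrank]; omega) (by rw [hrank]; exact hu2) (by rw [hrank]; exact hq')
  have := root_of_frame hp hV hα (by rw [hrank]; omega) hst (j := j) (by omega) (by omega)
    (by rw [hdE, h4, hrank]) hfr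
  rw [hrank, hfV, hd'] at this
  rw [hv'] at this hq
  nlinarith

/-- Degree `2 j n` is impossible above the plateau. -/
theorem he_top [CurveG k K] {H : Dv k K} {x y : K} (hp : Pencil H x y) {n d j v u : ℕ}
    (hn : 2 ≤ n) (hj : 1 ≤ j) (hjg : (j : ℤ) + 2 ≤ gen k K) (hd : d = j * n + v)
    (hv : 1 ≤ v) (hu : u + v = n) (h1 : (j : ℤ) * n ≤ gen k K * v)
    (h1' : j = 1 → (n : ℤ) ≠ gen k K * v)
    (hq : 1 < (v : ℤ) ^ 2 - (j - 1) * n * u) {e : ℤ} (he : e ∈ stableDegrees k K n d) :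
    2 * j * n + 1 ≤ e := by
  by_cases h2 : (j : ℤ) * n < (gen k K - 1) * v
  · exact (he_bounds hp hn hj hjg hd hv hu he).2 hq (Or.inl h2)
  push Not at h2
  rcases Nat.lt_or_ge j 2 with h3 | h3
  · have hj1 : j = 1 := by omega
    subst hj1
    have h4 := h1' rfl
    have h5 := (he_bounds hp hn hj hjg hd hv hu he).1 h1
    by_contra hcon
    have h6 : e = 2 * n := by push_cast at h5 hcon; omega
    obtain ⟨E, V, α, hα, hV, hfV, hdE, hst⟩ := of_mem_stableDegrees he
    have hrank : finrank K (Fin n → K) = n := Module.finrank_fin_fun K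
    have hd' : (d : ℤ) = n + v := by
      rw [hd]; push_cast; ring
    have hv2 : (2 : ℤ) ≤ v := by
      by_contra hc
      have : (v : ℤ) = 1 := by omega
      rw [this] at hq
      norm_num at hq
    have h7 : (n : ℤ) < gen k K * v := by
      push_cast at h1
      rw [one_mul] at h1
      exact lt_of_le_of_ne h1 h4
    push_cast at h2
    rw [one_mul] at h2
    refine strip_one hp hV hα (by rw [hrank]; omega) hst (by rw [hdE, h6, hrank]) ?_ ?_ ?_
    · rw [hrank, hfV, hd']; linarith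
    · rw [hrank, hfV, hd']; linarith
    · rw [hrank, hfV, hd']; linarith
  rcases le_or_gt ((j : ℤ) + 3) (gen k K) with h4 | h4
  · exact (he_bounds hp hn hj hjg hd hv hu he).2 hq (Or.inr ⟨h3, h4⟩)
  · exact he_strip_top hp hn h3 (by omega) hd hv hu h1 h2 hq he

/-- The lower bound. -/
theorem he_lower_phi [CurveG k K] {H : Dv k K} {x y : K} (hp : Pencil H x y) {n d j u c0 : ℕ}
    {y0 : ℤ} (hn : 2 ≤ n) (hj : 1 ≤ j) (hjg : (j : ℤ) + 2 ≤ gen k K)
    (hc0 : u < (j + 1) * (c0 + 1)) (hd : d + u = (j + 1) * n) (hy0 : 1 ≤ y0)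
    (hy : j * (y0 - 1) < n - (j + 1) * u) {e : ℤ} (he : e ∈ stableDegrees k K n d) :
    2 * j * n + min (min (2 * y0) (y0 + gen k K - 1 - j))
      ((n : ℤ) - ((gen k K - (j + 1)) * c0 + u)) ≤ e := by
  obtain ⟨E, V, α, hα, hV, hfV, rfl, hst⟩ := of_mem_stableDegrees he
  have hrank : finrank K (Fin n → K) = n := Module.finrank_fin_fun K
  have h1 := lower_IV hp hV hα (by rw [hrank]; exact hn) hst (j := j) (u := u) (c0 := c0)
    (y0 := y0) hj hc0 (by rw [hrank, hfV]; exact_mod_cast hd) hy0 hjg (by rw [hrank]; exact hy)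
  rw [hrank] at h1
  exact h1

/-- The boundary `n = g v`, `j = 1`. -/
theorem he_boundary [CurveG k K] {H : Dv k K} {x y : K} (hp : Pencil H x y) {n d v u : ℕ}
    (hn : 2 ≤ n) (hg3 : 3 ≤ gen k K) (hd : d = n + v) (hv : 1 ≤ v) (hu : u + v = n)
    (h1 : (n : ℤ) = gen k K * v) : IsLeast (stableDegrees k K n d) (2 * n) := by
  have hlow : ∀ e ∈ stableDegrees k K n d, 2 * (n : ℤ) ≤ e := by
    intro e he
    have h2 := (he_bounds hp hn (j := 1) le_rfl (by push_cast; omega) (by rw [hd]; ring) hv hu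
      he).1 (by push_cast; omega)
    push_cast at h2
    linarith
  refine ⟨?_, fun e he => hlow e he⟩
  obtain ⟨E, V, α, hα, hV, hfV, hdE, hst⟩ := G3.low_span (k := k) (K := K) (by omega) (n := n)
    (m := v) hv (le_of_eq h1.symm)
  have h3 := mem_stableDegrees (n := n) (d := d) (by omega) hα hV (by rw [hfV, hd]) hst
  have h4 := hlow _ h3
  have h5 : E.deg = 2 * n := by linarith
  rwa [h5] at h3

end Pool.Agent.MP_09eaec.GG
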